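import Mathlib
import Pool.Agent.H892R2.Fuchs.Core
import Pool.Agent.H892R2.Fuchs.Assembly

/-!
# The critical exponent can vary on the quasiconformal deformation space of an infinitely generated
Fuchsian group of the first kind

The definitions used in the statement (`moebius`, `PSL2R`, `IsFuchsian`, `orbitI`, `IsFirstKind`,
`IsQuasiconformal`, `IsotopicToId`, `deform`, `Tqc`, `poincareTerm`, `criticalExponent`) are in
`Pool.Agent.H892R2.Fuchs.Core`.

The group is generated by half-turns: one about a point of the imaginary axis, the others with
isometric half-discs that are disjoint and dense along the positive real axis.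
-/

set_option autoImplicit false

open UpperHalfPlane

namespace Pool.Agent.Results.MP_c5bc55_gt.ExponentVaries

open H892R2.Fuchs

/-- There are an infinitely generated Fuchsian group `Γ₀` of the first kind and two points
`w₁, w₂` of its quasiconformal deformation space with different critical exponents. -/
theorem result : ∃ Γ₀ : Subgroup (ℍ ≃ₜ ℍ), IsFuchsian Γ₀ ∧ IsFirstKind Γ₀ ∧ ¬ Γ₀.FG ∧
    ∃ w₁ ∈ Tqc Γ₀, ∃ w₂ ∈ Tqc Γ₀,
      criticalExponent (deform w₁ Γ₀) ≠ criticalExponent (deform w₂ Γ₀) :=
  target

end Pool.Agent.Results.MP_c5bc55_gt.ExponentVaries
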